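import Mathlib

set_option autoImplicit false

namespace Pool.Agent.Results.MP_0e848e_co.Counter

open Finset Polynomial

section
variable {d : ℕ} (A : Finset (Submodule ℝ (Fin d → ℝ)))

def Ch : Type := {C : Set (Fin d → ℝ) // ∃ x, (∀ H ∈ A, x ∉ H) ∧
  C = connectedComponentIn {y | ∀ H ∈ A, y ∉ H} x}

noncomputable def dist (C D : Ch A) : ℕ :=
  {H : Submodule ℝ (Fin d → ℝ) | H ∈ A ∧ ∃ x ∈ C.1, ∃ y ∈ D.1,
    y ∉ connectedComponentIn (H : Set (Fin d → ℝ))ᶜ x}.ncard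

def Adj (C D : Ch A) : Prop := dist A C D = 1

noncomputable def Var : Matrix (Ch A) (Ch A) (RatFunc ℚ) := fun C D => RatFunc.X ^ dist A C D

open Classical in
noncomputable def Mag [Fintype (Ch A)] : RatFunc ℚ := ∑ C, ∑ D, (Var A)⁻¹ C D
end

lemma comp {ι : Type} (l : ι → (Fin 5 → ℝ) →ₗ[ℝ] ℝ) (x : Fin 5 → ℝ) (hx : ∀ i, l i x ≠ 0) :
    connectedComponentIn {y | ∀ i, l i y ≠ 0} x = {y | ∀ i, 0 < l i x * l i y} := by
  have h0 : ∀ i, 0 < l i x * l i x := fun i => mul_self_pos.mpr (hx i)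
  refine subset_antisymm (fun y hy i => ?_) (IsPreconnected.subset_connectedComponentIn ?_ h0
    fun y hy i e => by simpa [e] using hy i)
  · refine isPreconnected_connectedComponentIn.lt_of_ne (f := fun y => l i x * l i y)
      (continuous_const.mul (l i).continuous_of_finiteDimensional).continuousOn
      (fun z hz => mul_ne_zero (hx i) ((connectedComponentIn_subset {y | ∀ i, l i y ≠ 0} _ hz) i))
      ⟨x, mem_connectedComponentIn (F := {y | ∀ i, l i y ≠ 0}) hx, h0 i⟩ hy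
  · rw [Set.ofPred_forall]
    exact (convex_iInter fun i => convex_halfSpace_gt (l i x • l i).isLinear 0).isPreconnected

def c : Fin 6 → Fin 5 → ℤ :=
  ![![1, 0, 0, 0, 0], ![0, 1, 0, 0, 0], ![0, 0, 1, 0, 0], ![1, 1, 1, 0, 0], ![0, 0, 0, 1, 0],
    ![0, 0, 0, 0, 1]]

noncomputable def l (i : Fin 6) : (Fin 5 → ℝ) →ₗ[ℝ] ℝ := ∑ j, (c i j : ℝ) • LinearMap.proj j

lemma l_int (i : Fin 6) (x : Fin 5 → ℤ) : l i (fun j => x j) = (∑ j, c i j * x j : ℤ) := by simp [l]

lemma l_inj : Function.Injective fun i => LinearMap.ker (l i) := by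
  intro i j h
  have key : ∀ i j, i ≠ j → ∃ a b, ∑ k, c i k * (Pi.single a 1 - Pi.single b 1 + c 4 : Fin 5 → ℤ) k = 0 ∧
      ∑ k, c j k * (Pi.single a 1 - Pi.single b 1 + c 4 : Fin 5 → ℤ) k ≠ 0 := by decide
  by_contra hc
  obtain ⟨a, b, h1, h2⟩ := key i j hc
  have := (SetLike.ext_iff.mp h fun k => (((Pi.single a 1 - Pi.single b 1 + c 4 : Fin 5 → ℤ) k : ℤ) : ℝ)).mp
    (by rw [LinearMap.mem_ker, l_int, h1]; simp)
  rw [LinearMap.mem_ker, l_int] at this
  exact h2 (by exact_mod_cast this)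

noncomputable def A : Finset (Submodule ℝ (Fin 5 → ℝ)) := univ.map ⟨_, l_inj⟩

abbrev S := {s : Fin 6 → Bool // ¬ (s 0 = s 1 ∧ s 1 = s 2 ∧ s 2 ≠ s 3)}

def sg (b : Bool) : ℤ := if b then 1 else -1

def p (s : S) : Fin 5 → ℤ := fun j =>
  let b := s.1 (![0, 1, 2, 4, 5] j)
  sg b * if b = s.1 3 then 3 else 1

lemma p_sg : ∀ (s : S) (i : Fin 6), 0 < sg (s.1 i) * ∑ j, c i j * p s j := by decide +kernel

def cell (s : S) : Set (Fin 5 → ℝ) := {y | ∀ i, 0 < sg (s.1 i) * l i y}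

lemma p_mem (s : S) : (fun j => (p s j : ℝ)) ∈ cell s := fun i => by
  rw [l_int]; exact_mod_cast p_sg s i

lemma sg_iff {b : Bool} {x y : ℝ} (h : 0 < sg b * x) : 0 < x * y ↔ 0 < sg b * y := by
  cases b <;> simp [sg] at h ⊢
  · exact ⟨fun a => by nlinarith, fun a => by nlinarith⟩
  · exact mul_pos_iff_of_pos_left h

lemma U_eq : {y | ∀ H ∈ A, y ∉ H} = {y | ∀ i, l i y ≠ 0} := by simp [A]

lemma cell_eq {s : S} {x : Fin 5 → ℝ} (h : x ∈ cell s) :
    connectedComponentIn {y | ∀ H ∈ A, y ∉ H} x = cell s := by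
  rw [U_eq, comp l x fun i e => by simpa [e] using h i]
  exact Set.ext fun y => forall_congr' fun i => sg_iff (h i)

def ch (s : S) : Ch A := ⟨cell s, _, U_eq.ge fun i e => by simpa [e] using p_mem s i,
  (cell_eq (p_mem s)).symm⟩

lemma sg_eq {a b : Bool} {x y : ℝ} (h : 0 < sg a * x) (h' : 0 < sg b * y) : 0 < x * y ↔ a = b := by
  rw [sg_iff h]
  cases a <;> cases b <;> simp [sg] at h' ⊢ <;> linarith

lemma ch_bij : Function.Bijective ch := by
  refine ⟨fun s t h => Subtype.ext (funext fun i => ?_), fun ⟨C, x, hx, hC⟩ => ?_⟩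
  · have h1 := p_mem s
    have h2 : _ ∈ cell t := (congrArg Subtype.val h).le h1
    exact (sg_eq (h1 i) (h2 i)).mp ((sg_iff (h1 i)).mpr (h1 i))
  · have hx' : ∀ i, l i x ≠ 0 := U_eq.le hx
    refine ⟨⟨fun i => decide (0 < l i x), ?_⟩, Subtype.ext (hC.trans (cell_eq fun i => ?_)).symm⟩
    · have h0 := hx' 0
      have h3 : l 3 x = l 0 x + l 1 x + l 2 x := by simp [l, c, Fin.sum_univ_succ]; ring
      simp only [decide_eq_decide, ne_eq]
      grind
    · have := hx' i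
      simp only [sg, decide_eq_true_eq]
      split_ifs <;> simp <;> grind

def ham (s t : S) : ℕ := (univ.filter fun i => s.1 i ≠ t.1 i).card

lemma dist_ch (s t : S) : dist A (ch s) (ch t) = ham s t := by
  rw [ham, ← Set.ncard_coe_finset, ← Set.ncard_image_of_injective _ l_inj, dist]
  congr 1
  ext H
  have key : ∀ i, ∀ x ∈ cell s, ∀ y ∈ cell t,
      y ∉ connectedComponentIn (LinearMap.ker (l i) : Set (Fin 5 → ℝ))ᶜ x ↔ s.1 i ≠ t.1 i := by
    intro i x hx y hy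
    rw [show (LinearMap.ker (l i) : Set (Fin 5 → ℝ))ᶜ = {y | ∀ _ : Unit, l i y ≠ 0} by ext; simp,
      comp (fun _ : Unit => l i) x fun _ e => by simpa [e] using hx i]
    simp [sg_eq (hx i) (hy i)]
  simp only [A, mem_map, mem_univ, true_and, Set.mem_setOf_eq, Set.mem_image, coe_filter]
  constructor
  · rintro ⟨⟨i, rfl⟩, x, hx, y, hy, h⟩; exact ⟨i, (key i x hx y hy).mp h, rfl⟩
  · rintro ⟨i, h, rfl⟩
    exact ⟨⟨i, rfl⟩, _, p_mem s, _, p_mem t, (key i _ (p_mem s) _ (p_mem t)).mpr h⟩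

def ty (s : S) : Bool := xor (xor (s.1 0) (s.1 1)) (xor (s.1 2) (!s.1 3))

def tab : Bool → Bool → ℕ → ℕ := fun a b k =>
  (if a then (if b then [1, 2, 7, 12, 7, 2, 1] else [0, 3, 6, 6, 6, 3, 0])
    else if b then [0, 4, 8, 8, 8, 4, 0] else [1, 2, 5, 8, 5, 2, 1]).getD k 0

lemma cnt : ∀ (s : S) (b : Bool) (k : Fin 7),
    (univ.filter fun t => ty t = b ∧ ham s t = k).card = tab (ty s) b k := by decide +kernel

lemma ham_lt (s t : S) : ham s t < 7 := Nat.lt_succ_of_le ((card_filter_le _ _).trans (by simp))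

noncomputable def W (b : Bool) : RatFunc ℚ :=
  (if b then RatFunc.X ^ 2 - RatFunc.X + 1 else (RatFunc.X - 1) ^ 2) /
    algebraMap ℚ[X] _ ((1 + X ^ 4) * (1 + X) ^ 4)

lemma den : ((1 + X ^ 4) * (1 + X) ^ 4 : ℚ[X]) ≠ 0 := fun h => by simpa using congrArg (eval 0) h

lemma row (s : S) : ∑ t, RatFunc.X ^ ham s t * W (ty t) = 1 := by
  rw [← sum_fiberwise (g := fun t => (ty t, (⟨ham s t, ham_lt s t⟩ : Fin 7)))]
  have : ∀ x : Bool × Fin 7, ∑ t with (ty t, (⟨ham s t, ham_lt s t⟩ : Fin 7)) = x,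
      RatFunc.X ^ ham s t * W (ty t) = tab (ty s) x.1 x.2 • (RatFunc.X ^ x.2.1 * W x.1) := by
    intro x
    rw [← cnt, ← sum_const]
    exact sum_congr (by simp [Prod.ext_iff, Fin.ext_iff]) fun t ht => by
      rw [(mem_filter.mp ht).2.1, (mem_filter.mp ht).2.2]
  have h := (map_ne_zero_iff _ (IsFractionRing.injective ℚ[X] (RatFunc ℚ))).mpr den
  rw [sum_congr rfl fun x _ => this x]
  simp only [Fintype.sum_prod_type, Fintype.sum_bool, Fin.sum_univ_seven, W]
  simp only [map_mul, map_pow, map_add, map_one, RatFunc.algebraMap_X] at h ⊢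
  obtain ⟨h1, h2⟩ := mul_ne_zero_iff.mp h
  have h3 := (pow_ne_zero_iff (by norm_num)).mp h2
  cases ty s <;> simp [tab] <;> field_simp <;> ring

open Classical in
theorem result : ∃ (d : ℕ) (A : Finset (Submodule ℝ (Fin d → ℝ))) (_ : Fintype (Ch A)),
    (∀ H ∈ A, Module.finrank ℝ H + 1 = d) ∧
    d - Module.finrank ℝ (⨅ H ∈ A, H : Submodule ℝ (Fin d → ℝ)) = 5 ∧ IsUnit (Var A).det ∧
    (¬ ∀ C D, ∃ φ : Ch A ≃ Ch A, (∀ x y, Adj A (φ x) (φ y) ↔ Adj A x y) ∧ φ C = D) ∧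
    ¬ cyclotomic (2 * A.card) ℚ ∣ (Mag A).denom := by
  let e := Equiv.ofBijective ch ch_bij
  have := Fintype.ofEquiv S e
  have hu : IsUnit (Var A).det := by
    let M : Matrix (Ch A) (Ch A) ℚ[X] := fun C D => X ^ dist A C D
    have h1 : Var A = (algebraMap ℚ[X] (RatFunc ℚ)).mapMatrix M := by ext; simp [Var, M]
    have h2 : (evalRingHom 0).mapMatrix M = 1 := by
      ext C D
      obtain ⟨s, rfl⟩ := ch_bij.2 C
      obtain ⟨t, rfl⟩ := ch_bij.2 D
      simp [M, dist_ch, Matrix.one_apply, ch_bij.1.eq_iff, zero_pow_eq, ham, Subtype.ext_iff, funext_iff]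
    rw [h1, ← RingHom.map_det, isUnit_iff_ne_zero, map_ne_zero_iff _ (IsFractionRing.injective _ _)]
    intro h
    have := RingHom.map_det (evalRingHom 0) M
    simp [h, h2] at this
  refine ⟨5, A, this, ?_, ?_, hu, fun h => ?_, fun h => ?_⟩
  · simp only [A, mem_map]
    rintro _ ⟨i, -, rfl⟩
    refine (Module.Dual.finrank_ker_add_one_of_ne_zero fun h => ?_).trans (by simp)
    simpa [h] using p_mem ⟨fun _ => true, by simp⟩ i
  · have : (⨅ H ∈ A, H : Submodule ℝ (Fin 5 → ℝ)) = ⊥ := by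
      refine eq_bot_iff.mpr fun x hx => ?_
      have hx : ∀ i, l i x = 0 := fun i =>
        (Submodule.mem_iInf _).mp ((Submodule.mem_iInf _).mp hx _) (mem_map_of_mem _ (mem_univ i))
      simp [l, c, Fin.forall_fin_succ, Fin.sum_univ_succ] at hx
      ext j; fin_cases j <;> simp [hx]
    rw [this]; simp
  · have hd : ∀ s, {D | Adj A (ch s) D}.ncard = (univ.filter fun t => ham s t = 1).card := fun s => by
      rw [← Set.ncard_coe_finset, ← Set.ncard_image_of_injective _ ch_bij.1]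
      congr 1
      ext D
      obtain ⟨t, rfl⟩ := ch_bij.2 D
      simp [Adj, dist_ch, ch_bij.1.eq_iff]
    obtain ⟨φ, h1, h2⟩ := h (ch ⟨fun _ => true, by simp⟩) (ch ⟨fun i => decide (i ≠ 0), by simp⟩)
    have h3 := hd ⟨fun i => decide (i ≠ 0), by simp⟩
    rw [← h2, ← Set.ncard_preimage_of_injective_subset_range φ.injective (by simp)] at h3
    simp only [Set.preimage_ofPred_eq, h1, hd] at h3
    revert h3; decide +kernel
  have h1 : (Var A).mulVec (fun C => W (ty (e.symm C))) = fun _ => 1 := funext fun C => by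
    obtain ⟨s, rfl⟩ := ch_bij.2 C
    rw [← row s, Matrix.mulVec, dotProduct, ← e.sum_comp]
    simp only [Equiv.symm_apply_apply]
    simp [e, Var, dist_ch]
  have h2 : Mag A = ∑ s, W (ty s) := by
    have := congrArg (Var A)⁻¹.mulVec h1
    rw [Matrix.mulVec_mulVec, Matrix.nonsing_inv_mul _ hu, Matrix.one_mulVec] at this
    rw [← e.symm.sum_comp]
    exact sum_congr rfl fun C _ => by rw [congrFun this C]; simp [Matrix.mulVec, dotProduct]
  have h3 : Mag A = algebraMap ℚ[X] _ (∑ s, if ty s then X ^ 2 - X + 1 else (X - 1) ^ 2) /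
      algebraMap ℚ[X] _ ((1 + X ^ 4) * (1 + X) ^ 4) := by
    rw [h2, map_sum, sum_div]
    exact sum_congr rfl fun s _ => by cases ty s <;> simp [W]
  rw [h3, show 2 * A.card = 12 by simp [A]] at h
  have hz := Complex.isPrimitiveRoot_exp 12 (by norm_num)
  generalize Complex.exp _ = z at hz
  have h4 := aeval_eq_zero_of_dvd_aeval_eq_zero (h.trans (RatFunc.denom_div_dvd _ _)) (x := z) (by
    rw [aeval_def, eval₂_eq_eval_map, map_cyclotomic]; exact hz.isRoot_cyclotomic (by norm_num))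
  simp only [map_mul, map_add, map_pow, map_one, aeval_X, mul_eq_zero, pow_eq_zero_iff, ne_eq,
    OfNat.ofNat_ne_zero, not_false_eq_true] at h4
  have h5 : z ^ 8 = 1 := by rcases h4 with h4 | h4 <;> grind
  exact absurd (hz.dvd_of_pow_eq_one 8 h5) (by norm_num)

end Pool.Agent.Results.MP_0e848e_co.Counter
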